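import Mathlib
import Pool.Agent.H.MP_dad4ef_an.C

open Filter Topology Set MeasureTheory
open scoped ENNReal

namespace Pool.Agent.Results.MP_dad4ef_an.No

def NormSq (f : ℂ → ℂ → ℂ) (s : ℝ) : Prop :=
  ∃ a : ℕ × ℕ → ℂ, (∀ x y : ℂ, ‖x‖ < 1 → ‖y‖ < 1 →
    HasSum (fun k : ℕ × ℕ => a k * x ^ k.1 * y ^ k.2) (f x y)) ∧
    HasSum (fun k : ℕ × ℕ => ((k.1 : ℝ) + 1) * (k.2 + 1) * ‖a k‖ ^ 2) s

def Cyclic (f : ℂ → ℂ → ℂ) : Prop :=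
  ∀ ε > 0, ∃ (p : MvPolynomial (Fin 2) ℂ) (s : ℝ),
    NormSq (fun x y => MvPolynomial.eval ![x, y] p * f x y - 1) s ∧ s < ε

def Radial (f : ℂ → ℂ → ℂ) (x y v : ℂ) : Prop :=
  Tendsto (fun r : ℝ => f (r * x) (r * y)) (𝓝[<] 1) (𝓝 v)

def IsMean (u : ℝ × ℝ → ℝ) (v : ℝ) : Prop :=
  let ν := (volume : Measure ℝ).restrict (Ioc 0 (2 * Real.pi))
  Integrable u (ν.prod ν) ∧ v = ((2 * Real.pi) ^ 2)⁻¹ * ∫ θ, u θ ∂ν.prod ν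

def Outer (f : ℂ → ℂ → ℂ) : Prop :=
  ∃ g : ℝ × ℝ → ℂ, (∀ᵐ θ : ℝ × ℝ, g θ ≠ 0 ∧
      Radial f (circleMap 0 1 θ.1) (circleMap 0 1 θ.2) (g θ)) ∧
    ∀ x y : ℂ, ‖x‖ < 1 → ‖y‖ < 1 → f x y ≠ 0 ∧ IsMean (fun θ => Real.log ‖g θ‖ *
      (poissonKernel 0 x (circleMap 0 1 θ.1) * poissonKernel 0 y (circleMap 0 1 θ.2)))
      (Real.log ‖f x y‖)

noncomputable def K (a b : ℂ) : ℝ≥0∞ :=
  if a = b then ∞ else ENNReal.ofReal (Real.log (Real.exp 1 / ‖a - b‖))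

def CapZero (E : Set (ℂ × ℂ)) : Prop :=
  ∀ μ : Measure (ℂ × ℂ), IsProbabilityMeasure μ → μ Eᶜ = 0 →
    ∫⁻ ζ, ∫⁻ η, K ζ.1 η.1 * K ζ.2 η.2 ∂μ ∂μ = ∞

open Pool.Agent.H.MP_dad4ef_an in
theorem result : ∃ f : ℂ → ℂ → ℂ, (∃ s, NormSq f s) ∧ Outer f ∧
    CapZero {ζ | ‖ζ.1‖ = 1 ∧ ‖ζ.2‖ = 1 ∧ Radial f ζ.1 ζ.2 0} ∧ ¬ Cyclic f := by
  refine ⟨fun x y => F ((x + y) / 2), ⟨_, a, fun x y => arep, asum.hasSum⟩,
    ⟨fun θ => F ((circleMap 0 1 θ.1 + circleMap 0 1 θ.2) / 2), ?_, fun x y hx hy =>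
      ⟨Complex.exp_ne_zero _, ?_⟩⟩, fun μ _ h => ?_, fun h => ?_⟩
  · filter_upwards [Measure.quasiMeasurePreserving_snd.ae ae1] with θ hθ
    exact ⟨Complex.exp_ne_zero _, rad (hre (by simp) (by simp) (Or.inr hθ))⟩
  · simp only [IsMean, F, Complex.norm_exp, Real.log_exp]
    refine ⟨(outer hx hy).1, ?_⟩
    rw [(outer hx hy).2, inv_mul_cancel_left₀ (by positivity)]
  · have k : ∀ᵐ ζ ∂μ, ζ.1 = 1 ∧ ζ.2 = 1 := by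
      filter_upwards [mem_ae_iff.2 h] with ζ hζ
      by_contra e
      exact Complex.exp_ne_zero _ (tendsto_nhds_unique
        (rad (hre hζ.1.le hζ.2.1.le (not_and_or.1 e))) hζ.2.2)
    rw [lintegral_congr_ae (g := fun _ => ∞)]
    · simp
    filter_upwards [k] with ζ hζ
    rw [lintegral_congr_ae (g := fun _ => ∞)]
    · simp
    filter_upwards [k] with η hη
    simp [K, hζ, hη]
  · obtain ⟨p, s, ⟨b, h1, h2⟩, hs⟩ := h (1 / 10) (by norm_num)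
    refine hs.not_ge (noncyc (q := fun w => MvPolynomial.eval ![w, w] p) ?_
      (fun w hw => by simpa using h1 w w hw hw) h2)
    simp only [MvPolynomial.eval_eq', Fin.prod_univ_two, Matrix.cons_val_zero,
      Matrix.cons_val_one]
    fun_prop

end Pool.Agent.Results.MP_dad4ef_an.No
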